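import Mathlib

set_option autoImplicit false

open Set MeasureTheory

namespace Pool.Agent.Results.MP_2fa24b_lc.BorelPartition

/-!
# A Borel partition of the edges of the Schreier graph of the free part of the 2-shift of `F2`
that meets all `H`-lines, `V`-lines and `D`-lines

Idea of the proof.  Let `M` be a Borel maximal independent set of the Schreier graph `G`.  For a
point `x` of `M`, the four edges at `x` are given to the four lines through `x`, one to each:
`{x, a x}` to the `H`-line, `{x, b x}` to the `V`-line, `{b⁻¹ x, x}` and `{a⁻¹ x, x}` to the two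
`D`-lines through `x`.  Every line that meets `M` gets an edge in this way.  An edge that does not
touch `M` and lies on exactly one line that misses `M` is given to that line.  A line that misses
`M` always has such an edge, by the maximality of `M`.
-/

/-! ## Definitions, as in the problem file -/

/-- The free group on two generators. -/
abbrev F2 : Type := FreeGroup (Fin 2)

/-- The first generator. -/
def a : F2 := FreeGroup.of 0

/-- The second generator. -/
def b : F2 := FreeGroup.of 1

/-- The shift action of `F2` on the points of `2^F2`, `(g . x) (h) = x (g⁻¹ h)`. -/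
def shift (g : F2) (x : F2 → Bool) : F2 → Bool := fun h => x (g⁻¹ * h)

/-- The free part of the shift action on `2^F2`. -/
def X : Type := {x : F2 → Bool // ∀ g : F2, g ≠ 1 → shift g x ≠ x}

/-- `2^F2` carries the product topology and `X` the subspace topology. -/
instance : TopologicalSpace X := instTopologicalSpaceSubtype

/-- The Borel sets of `X`. -/
instance : MeasurableSpace X := borel X

lemma shift_mul (g h : F2) (x : F2 → Bool) : shift (g * h) x = shift g (shift h x) := by
  funext k; simp [shift, mul_assoc]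

lemma shift_one (x : F2 → Bool) : shift 1 x = x := by
  funext k; simp [shift]

/-- `X` is invariant, so that `F2` acts on it. -/
lemma shift_free (g : F2) (x : X) : ∀ k : F2, k ≠ 1 → shift k (shift g x.1) ≠ shift g x.1 := by
  intro k hk h
  have h1 : shift (g⁻¹ * k * g) x.1 = x.1 := by
    rw [shift_mul, shift_mul, h, ← shift_mul]
    simp [shift_one]
  refine x.2 (g⁻¹ * k * g) ?_ h1
  intro h2
  apply hk
  have : k = g * (g⁻¹ * k * g) * g⁻¹ := by group
  rw [this, h2]; group

/-- The shift action on `X`. -/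
instance : MulAction F2 X where
  smul g x := ⟨shift g x.1, shift_free g x⟩
  one_smul x := Subtype.ext (shift_one x.1)
  mul_smul g h x := Subtype.ext (shift_mul g h x.1)

/-- `X` is not empty: the indicator function of `{1}` lies in the free part. -/
instance : Nonempty X := by
  classical
  refine ⟨⟨fun h => decide (h = 1), fun g hg h => hg ?_⟩⟩
  have h1 := congrFun h 1
  simpa [shift] using h1

/-- The Schreier graph on `X` for the generating set `{a, b}`. -/
def G : SimpleGraph X where
  Adj x y := x ≠ y ∧ (y = a • x ∨ y = b • x ∨ x = a • y ∨ x = b • y)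
  symm := ⟨fun _ _ h => ⟨h.1.symm, by tauto⟩⟩
  loopless := ⟨fun _ h => h.1 rfl⟩

/-- `H = {a^n : n ∈ ℤ}`. -/
def H : Set F2 := {g | ∃ n : ℤ, g = a ^ n}

/-- `V = {b^n : n ∈ ℤ}`. -/
def V : Set F2 := {g | ∃ n : ℤ, g = b ^ n}

/-- The two-sided sequence `w` of the problem: `w 0 = 1`, `w (n+1) = a * w n` for even `n` and
`w (n+1) = b * w n` for odd `n` (see `w_zero`, `w_succ_even`, `w_succ_odd`). -/
def w (n : ℤ) : F2 := if Even n then (b * a) ^ (n / 2) else a * (b * a) ^ (n / 2)

lemma w_zero : w 0 = 1 := by simp [w]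

lemma w_succ_even (n : ℤ) (hn : Even n) : w (n + 1) = a * w n := by
  have h1 : ¬ Even (n + 1) := by
    rw [Int.not_even_iff_odd]; exact hn.add_one
  obtain ⟨k, rfl⟩ := hn
  have h2 : (k + k + 1) / 2 = k := by omega
  have h3 : (k + k) / 2 = k := by omega
  simp only [w, h1, if_false, h2, h3, Even.add_self k, if_true]

lemma w_succ_odd (n : ℤ) (hn : Odd n) : w (n + 1) = b * w n := by
  have h1 : Even (n + 1) := hn.add_one
  have h4 : ¬ Even n := by rwa [Int.not_even_iff_odd]
  obtain ⟨k, rfl⟩ := hn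
  have h2 : (2 * k + 1 + 1) / 2 = 1 + k := by omega
  have h3 : (2 * k + 1) / 2 = k := by omega
  simp only [w, h1, if_true, h2, h3, h4, if_false]
  rw [zpow_add, zpow_one]; group

/-- `D = {w n : n ∈ ℤ}`. -/
def D : Set F2 := {g | ∃ n : ℤ, g = w n}

/-- `S . x = {s . x : s ∈ S}`. -/
def orb (S : Set F2) (x : X) : Set X := {y | ∃ s ∈ S, y = s • x}

/-- A set of unordered pairs of points of `X` is Borel if the set of ordered pairs that
represent its members is a Borel subset of `X × X`. -/
def BorelEdges (A : Set (Sym2 X)) : Prop :=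
  @MeasurableSet (X × X) (borel (X × X)) {p | s(p.1, p.2) ∈ A}

/-- The set `S` of vertices contains an edge of `A`. -/
def ContainsEdge (S : Set X) (A : Set (Sym2 X)) : Prop :=
  ∃ e ∈ A, ∀ v ∈ e, v ∈ S


/-! ## Topological and measurable preliminaries -/

instance : BorelSpace X := ⟨rfl⟩

instance : SecondCountableTopology X :=
  TopologicalSpace.Subtype.secondCountableTopology
    {x : F2 → Bool | ∀ g : F2, g ≠ 1 → shift g x ≠ x}

instance : T2Space X :=
  inferInstanceAs (T2Space {x : F2 → Bool // ∀ g : F2, g ≠ 1 → shift g x ≠ x})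

lemma continuous_smul' (g : F2) : Continuous (fun x : X => g • x) := by
  refine Continuous.subtype_mk ?_ _
  refine continuous_pi fun h => ?_
  exact (continuous_apply (g⁻¹ * h)).comp continuous_subtype_val

lemma measurable_smul' (g : F2) : Measurable (fun x : X => g • x) :=
  (continuous_smul' g).measurable

lemma smul_ne (g : F2) (hg : g ≠ 1) (x : X) : g • x ≠ x := by
  intro h
  exact x.2 g hg (congrArg Subtype.val h)

lemma a_ne_one : a ≠ 1 := FreeGroup.of_ne_one 0
lemma b_ne_one : b ≠ 1 := FreeGroup.of_ne_one 1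

/-- A homomorphism sending `a` to `i` and `b` to `j`. -/
def hom (i j : ℤ) : F2 →* Multiplicative ℤ :=
  FreeGroup.lift (fun k => if k = 0 then Multiplicative.ofAdd i else Multiplicative.ofAdd j)

lemma hom_a (i j : ℤ) : hom i j a = Multiplicative.ofAdd i := by simp [hom, a]
lemma hom_b (i j : ℤ) : hom i j b = Multiplicative.ofAdd j := by simp [hom, b]

lemma ne_one_of_hom (i j : ℤ) (g : F2) (h : hom i j g ≠ 1) : g ≠ 1 := by
  rintro rfl; exact h (map_one _)

/-! ## A Borel maximal independent set -/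

/-- Stage `n` of the greedy construction. -/
def stage (U : ℕ → Set X) : ℕ → Set X
  | 0 => ∅
  | n + 1 => stage U n ∪ {x | x ∈ U n ∧ a • x ∉ stage U n ∧ a⁻¹ • x ∉ stage U n ∧
      b • x ∉ stage U n ∧ b⁻¹ • x ∉ stage U n}

lemma stage_mono (U : ℕ → Set X) {m n : ℕ} (h : m ≤ n) : stage U m ⊆ stage U n := by
  induction n, h using Nat.le_induction with
  | base => exact subset_rfl
  | succ n _ ih => exact ih.trans subset_union_left

lemma stage_meas (U : ℕ → Set X) (hU : ∀ n, MeasurableSet (U n)) (n : ℕ) :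
    MeasurableSet (stage U n) := by
  induction n with
  | zero => exact MeasurableSet.empty
  | succ n ih =>
    refine ih.union ?_
    refine (hU n).inter ?_
    refine ((measurable_smul' a) ih).compl.inter ?_
    refine ((measurable_smul' a⁻¹) ih).compl.inter ?_
    exact ((measurable_smul' b) ih).compl.inter ((measurable_smul' b⁻¹) ih).compl

lemma stage_indep (U : ℕ → Set X) (hUa : ∀ n, ∀ x ∈ U n, a • x ∉ U n)
    (hUb : ∀ n, ∀ x ∈ U n, b • x ∉ U n) (n : ℕ) :
    ∀ x ∈ stage U n, a • x ∉ stage U n ∧ b • x ∉ stage U n := by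
  induction n with
  | zero => intro x hx; exact absurd hx (notMem_empty x)
  | succ n ih =>
    rintro x (hx | ⟨h0, h1, h2, h3, h4⟩)
    · constructor
      · rintro (h | ⟨g0, g1, g2, g3, g4⟩)
        · exact (ih x hx).1 h
        · rw [inv_smul_smul] at g2; exact g2 hx
      · rintro (h | ⟨g0, g1, g2, g3, g4⟩)
        · exact (ih x hx).2 h
        · rw [inv_smul_smul] at g4; exact g4 hx
    · constructor
      · rintro (h | ⟨g0, g1, g2, g3, g4⟩)
        · exact h1 h
        · exact hUa n x h0 g0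
      · rintro (h | ⟨g0, g1, g2, g3, g4⟩)
        · exact h3 h
        · exact hUb n x h0 g0

lemma exists_cover : ∃ U : ℕ → Set X, (∀ n, MeasurableSet (U n)) ∧
    (∀ n, ∀ x ∈ U n, a • x ∉ U n) ∧ (∀ n, ∀ x ∈ U n, b • x ∉ U n) ∧ ∀ x, ∃ n, x ∈ U n := by
  classical
  have hB := TopologicalSpace.isBasis_countableBasis X
  have hc := TopologicalSpace.countable_countableBasis X
  have hne : (TopologicalSpace.countableBasis X).Nonempty ∨
      ¬ (TopologicalSpace.countableBasis X).Nonempty := em _
  rcases hne with hne | hne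
  · obtain ⟨f, hf⟩ := hc.exists_eq_range hne
    let good : Set X → Prop := fun U => (∀ x ∈ U, a • x ∉ U) ∧ (∀ x ∈ U, b • x ∉ U)
    refine ⟨fun n => if good (f n) then f n else ∅, ?_, ?_, ?_, ?_⟩
    · intro n
      dsimp only
      split_ifs
      · have : f n ∈ TopologicalSpace.countableBasis X := by rw [hf]; exact mem_range_self n
        exact (hB.isOpen this).measurableSet
      · exact MeasurableSet.empty
    · intro n x hx
      dsimp only at hx ⊢
      split_ifs at hx ⊢ with h
      · exact h.1 x hx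
      · exact fun h => h.elim
    · intro n x hx
      dsimp only at hx ⊢
      split_ifs at hx ⊢ with h
      · exact h.2 x hx
      · exact fun h => h.elim
    · intro x
      obtain ⟨u1, v1, hu1, hv1, hxu1, hxv1, hd1⟩ := t2_separation (smul_ne a a_ne_one x)
      obtain ⟨u2, v2, hu2, hv2, hxu2, hxv2, hd2⟩ := t2_separation (smul_ne b b_ne_one x)
      have hopen : IsOpen (v1 ∩ v2 ∩ ((fun y : X => a • y) ⁻¹' u1) ∩ ((fun y : X => b • y) ⁻¹' u2)) :=
        ((hv1.inter hv2).inter (hu1.preimage (continuous_smul' a))).inter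
          (hu2.preimage (continuous_smul' b))
      have hxm : x ∈ v1 ∩ v2 ∩ ((fun y : X => a • y) ⁻¹' u1) ∩ ((fun y : X => b • y) ⁻¹' u2) :=
        ⟨⟨⟨hxv1, hxv2⟩, hxu1⟩, hxu2⟩
      obtain ⟨t, ht, hxt, hts⟩ := hB.exists_subset_of_mem_open hxm hopen
      rw [hf] at ht
      obtain ⟨n, rfl⟩ := ht
      refine ⟨n, ?_⟩
      have hg : good (f n) := by
        constructor
        · intro y hy h
          have h1 := (hts hy).1.2
          have h2 := (hts h).1.1.1
          exact (Set.disjoint_left.1 hd1) h1 h2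
        · intro y hy h
          have h1 := (hts hy).2
          have h2 := (hts h).1.1.2
          exact (Set.disjoint_left.1 hd2) h1 h2
      dsimp only
      rw [if_pos hg]
      exact hxt
  · refine ⟨fun _ => ∅, fun _ => MeasurableSet.empty, fun _ _ h => h.elim, fun _ _ h => h.elim, ?_⟩
    intro x
    exfalso
    obtain ⟨t, ht, _⟩ := hB.exists_subset_of_mem_open (mem_univ x) isOpen_univ
    exact hne ⟨t, ht⟩

/-- There is a Borel maximal independent set. -/
lemma exists_mis : ∃ M : Set X, MeasurableSet M ∧ (∀ x ∈ M, a • x ∉ M) ∧ (∀ x ∈ M, b • x ∉ M) ∧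
    (∀ x, x ∉ M → a • x ∈ M ∨ a⁻¹ • x ∈ M ∨ b • x ∈ M ∨ b⁻¹ • x ∈ M) := by
  obtain ⟨U, hU, hUa, hUb, hcov⟩ := exists_cover
  have key := stage_indep U hUa hUb
  refine ⟨⋃ n, stage U n, MeasurableSet.iUnion (stage_meas U hU), ?_, ?_, ?_⟩
  · intro x hx h
    rw [mem_iUnion] at hx h
    obtain ⟨m, hm⟩ := hx
    obtain ⟨n, hn⟩ := h
    exact (key (max m n) x (stage_mono U (le_max_left _ _) hm)).1
      (stage_mono U (le_max_right _ _) hn)
  · intro x hx h
    rw [mem_iUnion] at hx h
    obtain ⟨m, hm⟩ := hx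
    obtain ⟨n, hn⟩ := h
    exact (key (max m n) x (stage_mono U (le_max_left _ _) hm)).2
      (stage_mono U (le_max_right _ _) hn)
  · intro x hx
    obtain ⟨n, hn⟩ := hcov x
    have h1 : x ∉ stage U (n + 1) := fun h => hx (mem_iUnion.2 ⟨_, h⟩)
    have hsub : stage U n ⊆ ⋃ n, stage U n := subset_iUnion (stage U) n
    by_contra hcon
    push Not at hcon
    apply h1
    right
    exact ⟨hn, fun h => hcon.1 (hsub h), fun h => hcon.2.1 (hsub h), fun h => hcon.2.2.1 (hsub h),
      fun h => hcon.2.2.2 (hsub h)⟩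

/-! ## The edge sets -/

lemma aa_ne : a * a ≠ 1 := ne_one_of_hom 1 0 _ (by rw [map_mul, hom_a]; decide)
lemma bb_ne : b * b ≠ 1 := ne_one_of_hom 0 1 _ (by rw [map_mul, hom_b]; decide)
lemma ab_ne : a * b ≠ 1 := ne_one_of_hom 1 0 _ (by rw [map_mul, hom_a, hom_b]; decide)
lemma a_inv_b_ne : a⁻¹ * b ≠ 1 :=
  ne_one_of_hom 1 0 _ (by rw [map_mul, map_inv, hom_a, hom_b]; decide)

/-- The unordered edges `{x, a x}`, `x ∈ E`. -/
def aEdges (E : Set X) : Set (Sym2 X) := {e | ∃ x ∈ E, e = s(x, a • x)}

/-- The unordered edges `{x, b x}`, `x ∈ E`. -/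
def bEdges (E : Set X) : Set (Sym2 X) := {e | ∃ x ∈ E, e = s(x, b • x)}

lemma mem_aEdges {E : Set X} {x : X} : s(x, a • x) ∈ aEdges E ↔ x ∈ E := by
  constructor
  · rintro ⟨y, hy, h⟩
    rw [Sym2.eq_iff] at h
    rcases h with ⟨h, _⟩ | ⟨h1, h2⟩
    · rwa [h]
    · exfalso
      apply smul_ne _ aa_ne x
      rw [mul_smul, h2, ← h1]
  · intro h; exact ⟨x, h, rfl⟩

lemma mem_bEdges {E : Set X} {x : X} : s(x, b • x) ∈ bEdges E ↔ x ∈ E := by
  constructor
  · rintro ⟨y, hy, h⟩
    rw [Sym2.eq_iff] at h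
    rcases h with ⟨h, _⟩ | ⟨h1, h2⟩
    · rwa [h]
    · exfalso
      apply smul_ne _ bb_ne x
      rw [mul_smul, h2, ← h1]
  · intro h; exact ⟨x, h, rfl⟩

lemma a_edge_notMem_bEdges {E : Set X} {x : X} : s(x, a • x) ∉ bEdges E := by
  rintro ⟨y, hy, h⟩
  rw [Sym2.eq_iff] at h
  rcases h with ⟨h1, h2⟩ | ⟨h1, h2⟩
  · apply smul_ne _ a_inv_b_ne x
    rw [mul_smul, inv_smul_eq_iff, h2, h1]
  · apply smul_ne _ ab_ne y
    rw [mul_smul, ← h1, h2]

lemma b_edge_notMem_aEdges {E : Set X} {x : X} : s(x, b • x) ∉ aEdges E := by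
  rintro ⟨y, hy, h⟩
  rw [Sym2.eq_iff] at h
  rcases h with ⟨h1, h2⟩ | ⟨h1, h2⟩
  · apply smul_ne _ a_inv_b_ne x
    rw [mul_smul, inv_smul_eq_iff, h2, h1]
  · apply smul_ne _ ab_ne x
    rw [mul_smul, h2, ← h1]

lemma a_edge_mem (x : X) : s(x, a • x) ∈ G.edgeSet := by
  rw [SimpleGraph.mem_edgeSet]
  exact ⟨(smul_ne a a_ne_one x).symm, Or.inl rfl⟩

lemma b_edge_mem (x : X) : s(x, b • x) ∈ G.edgeSet := by
  rw [SimpleGraph.mem_edgeSet]
  exact ⟨(smul_ne b b_ne_one x).symm, Or.inr (Or.inl rfl)⟩

lemma aEdges_subset (E : Set X) : aEdges E ⊆ G.edgeSet := by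
  rintro e ⟨x, _, rfl⟩; exact a_edge_mem x

lemma bEdges_subset (E : Set X) : bEdges E ⊆ G.edgeSet := by
  rintro e ⟨x, _, rfl⟩; exact b_edge_mem x

lemma disjoint_ab (E F : Set X) : Disjoint (aEdges E) (bEdges F) := by
  rw [Set.disjoint_left]
  rintro e ⟨x, _, rfl⟩ h
  exact a_edge_notMem_bEdges h

lemma borel_prod : (borel (X × X)) = (inferInstance : MeasurableSpace (X × X)) :=
  (BorelSpace.measurable_eq (α := X × X)).symm

lemma measurableSet_graph (g : F2) : MeasurableSet {p : X × X | p.2 = g • p.1} :=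
  measurableSet_eq_fun measurable_snd ((measurable_smul' g).comp measurable_fst)

lemma measurableSet_graph' (g : F2) : MeasurableSet {p : X × X | p.1 = g • p.2} :=
  measurableSet_eq_fun measurable_fst ((measurable_smul' g).comp measurable_snd)

lemma borel_aEdges {E : Set X} (hE : MeasurableSet E) : BorelEdges (aEdges E) := by
  unfold BorelEdges
  rw [borel_prod]
  have : {p : X × X | s(p.1, p.2) ∈ aEdges E} =
      ((Prod.fst ⁻¹' E) ∩ {p : X × X | p.2 = a • p.1}) ∪
      ((Prod.snd ⁻¹' E) ∩ {p : X × X | p.1 = a • p.2}) := by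
    ext ⟨x, y⟩
    simp only [aEdges, mem_ofPred_eq, mem_union, mem_inter_iff, mem_preimage, Sym2.eq_iff]
    constructor
    · rintro ⟨z, hz, ⟨h1, h2⟩ | ⟨h1, h2⟩⟩
      · left; subst h1; exact ⟨hz, h2⟩
      · right; subst h2; exact ⟨hz, h1⟩
    · rintro (⟨h1, h2⟩ | ⟨h1, h2⟩)
      · exact ⟨x, h1, Or.inl ⟨rfl, h2⟩⟩
      · exact ⟨y, h1, Or.inr ⟨h2, rfl⟩⟩
  rw [this]
  exact ((measurable_fst hE).inter (measurableSet_graph a)).union
    ((measurable_snd hE).inter (measurableSet_graph' a))

lemma borel_bEdges {E : Set X} (hE : MeasurableSet E) : BorelEdges (bEdges E) := by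
  unfold BorelEdges
  rw [borel_prod]
  have : {p : X × X | s(p.1, p.2) ∈ bEdges E} =
      ((Prod.fst ⁻¹' E) ∩ {p : X × X | p.2 = b • p.1}) ∪
      ((Prod.snd ⁻¹' E) ∩ {p : X × X | p.1 = b • p.2}) := by
    ext ⟨x, y⟩
    simp only [bEdges, mem_ofPred_eq, mem_union, mem_inter_iff, mem_preimage, Sym2.eq_iff]
    constructor
    · rintro ⟨z, hz, ⟨h1, h2⟩ | ⟨h1, h2⟩⟩
      · left; subst h1; exact ⟨hz, h2⟩
      · right; subst h2; exact ⟨hz, h1⟩
    · rintro (⟨h1, h2⟩ | ⟨h1, h2⟩)
      · exact ⟨x, h1, Or.inl ⟨rfl, h2⟩⟩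
      · exact ⟨y, h1, Or.inr ⟨h2, rfl⟩⟩
  rw [this]
  exact ((measurable_fst hE).inter (measurableSet_graph b)).union
    ((measurable_snd hE).inter (measurableSet_graph' b))

lemma borel_edgeSet : BorelEdges G.edgeSet := by
  unfold BorelEdges
  rw [borel_prod]
  have : {p : X × X | s(p.1, p.2) ∈ G.edgeSet} =
      {p : X × X | p.1 = p.2}ᶜ ∩ ({p : X × X | p.2 = a • p.1} ∪ ({p : X × X | p.2 = b • p.1} ∪
        ({p : X × X | p.1 = a • p.2} ∪ {p : X × X | p.1 = b • p.2}))) := by
    ext ⟨x, y⟩
    simp only [SimpleGraph.mem_edgeSet, G, mem_ofPred_eq, mem_union, mem_inter_iff, mem_compl_iff,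
      ne_eq]
  rw [this]
  exact (measurableSet_eq_fun measurable_fst measurable_snd).compl.inter
    ((measurableSet_graph a).union ((measurableSet_graph b).union
      ((measurableSet_graph' a).union (measurableSet_graph' b))))

lemma borel_diff {A B : Set (Sym2 X)} (hA : BorelEdges A) (hB : BorelEdges B) :
    BorelEdges (A \ B) := by
  unfold BorelEdges at *
  exact MeasurableSet.diff hA hB

lemma borel_union {A B : Set (Sym2 X)} (hA : BorelEdges A) (hB : BorelEdges B) :
    BorelEdges (A ∪ B) := by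
  unfold BorelEdges at *
  exact MeasurableSet.union hA hB

/-- The points whose orbit under the elements `f n`, `n ∈ ℤ`, meets `M`. -/
def met (f : ℤ → F2) (M : Set X) : Set X := {x | ∃ n : ℤ, f n • x ∈ M}

lemma measurableSet_met (f : ℤ → F2) {M : Set X} (hM : MeasurableSet M) :
    MeasurableSet (met f M) := by
  have : met f M = ⋃ n : ℤ, (fun x : X => f n • x) ⁻¹' M := by
    ext x; simp [met]
  rw [this]
  exact MeasurableSet.iUnion fun n => (measurable_smul' (f n)) hM

lemma w_one : w 1 = a := by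
  have := w_succ_even 0 (by decide); simpa [w_zero] using this
lemma w_two : w 2 = b * a := by
  have := w_succ_odd 1 (by decide); rw [w_one] at this; simpa using this
lemma w_three : w 3 = a * (b * a) := by
  have := w_succ_even 2 (by decide); rw [w_two] at this; simpa using this
lemma w_neg_one : w (-1) = b⁻¹ := by
  have := w_succ_odd (-1) (by decide)
  simp only [neg_add_cancel, w_zero] at this
  exact (inv_eq_of_mul_eq_one_right this.symm).symm

/-- There are Borel sets `A`, `B`, `C` that partition the edge set of `G` and are such that for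
every `x`, the set `H . x` contains an edge of `A`, the set `V . x` contains an edge of `B` and the
set `D . x` contains an edge of `C`. -/
theorem result : ∃ A B C : Set (Sym2 X),
    BorelEdges A ∧ BorelEdges B ∧ BorelEdges C ∧
    A ∪ B ∪ C = G.edgeSet ∧ Disjoint A B ∧ Disjoint A C ∧ Disjoint B C ∧
    ∀ x : X, ContainsEdge (orb H x) A ∧ ContainsEdge (orb V x) B ∧ ContainsEdge (orb D x) C := by
  obtain ⟨M, hM, hMa, hMb, hmax⟩ := exists_mis
  set Hm : Set X := met (fun n => a ^ n) M with hHm
  set Vm : Set X := met (fun n => b ^ n) M with hVm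
  set Dm : Set X := met w M with hDm
  have mHm : MeasurableSet Hm := measurableSet_met _ hM
  have mVm : MeasurableSet Vm := measurableSet_met _ hM
  have mDm : MeasurableSet Dm := measurableSet_met _ hM
  set EA : Set X := M ∪ (((fun x : X => a • x) ⁻¹' M)ᶜ ∩ (Hmᶜ ∩ Dm)) with hEA
  set EB : Set X := M ∪ (((fun x : X => b • x) ⁻¹' M)ᶜ ∩ (Vmᶜ ∩ ((fun x : X => a⁻¹ • x) ⁻¹' Dm)))
    with hEB
  have mEA : MeasurableSet EA :=
    hM.union (((measurable_smul' a) hM).compl.inter (mHm.compl.inter mDm))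
  have mEB : MeasurableSet EB :=
    hM.union (((measurable_smul' b) hM).compl.inter
      (mVm.compl.inter ((measurable_smul' a⁻¹) mDm)))
  have bA := borel_aEdges mEA
  have bB := borel_bEdges mEB
  -- membership in the third set
  have hCb : ∀ x : X, x ∉ EB → s(x, b • x) ∈ G.edgeSet \ (aEdges EA ∪ bEdges EB) := by
    intro x hx
    refine ⟨b_edge_mem x, ?_⟩
    rintro (h | h)
    · exact b_edge_notMem_aEdges h
    · exact hx (mem_bEdges.1 h)
  have hCa : ∀ x : X, x ∉ EA → s(x, a • x) ∈ G.edgeSet \ (aEdges EA ∪ bEdges EB) := by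
    intro x hx
    refine ⟨a_edge_mem x, ?_⟩
    rintro (h | h)
    · exact hx (mem_aEdges.1 h)
    · exact a_edge_notMem_bEdges h
  refine ⟨aEdges EA, bEdges EB, G.edgeSet \ (aEdges EA ∪ bEdges EB), bA, bB,
    borel_diff borel_edgeSet (borel_union bA bB), ?_, disjoint_ab _ _, ?_, ?_, ?_⟩
  · rw [Set.union_sdiff_cancel]
    exact union_subset (aEdges_subset _) (bEdges_subset _)
  · exact Set.disjoint_left.2 fun e h1 h2 => h2.2 (Or.inl h1)
  · exact Set.disjoint_left.2 fun e h1 h2 => h2.2 (Or.inr h1)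
  intro x
  refine ⟨?_, ?_, ?_⟩
  · -- the line `H . x`
    by_cases hx : x ∈ Hm
    · obtain ⟨n, hn⟩ := hx
      refine ⟨s(a ^ n • x, a • a ^ n • x), mem_aEdges.2 (Or.inl hn), ?_⟩
      intro v hv
      rw [Sym2.mem_iff] at hv
      rcases hv with rfl | rfl
      · exact ⟨a ^ n, ⟨n, rfl⟩, rfl⟩
      · exact ⟨a ^ (n + 1), ⟨n + 1, rfl⟩, by rw [← mul_smul, add_comm, zpow_add, zpow_one]⟩
    · have hno : ∀ n : ℤ, a ^ n • x ∉ M := fun n h => hx ⟨n, h⟩
      have h0 : x ∉ M := by simpa using hno 0
      have h1 : a • x ∉ M := by simpa using hno 1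
      have h2 : a • a • x ∉ M := by
        have := hno 2
        rwa [zpow_two, mul_smul] at this
      have hnb := hmax (a • x) h1
      rw [inv_smul_smul] at hnb
      have hnb' : b • a • x ∈ M ∨ b⁻¹ • a • x ∈ M := by tauto
      rcases hnb' with h | h
      · have hxE : x ∈ EA := by
          right
          refine ⟨h1, hx, 2, ?_⟩
          rw [w_two, mul_smul]; exact h
        refine ⟨s(x, a • x), mem_aEdges.2 hxE, ?_⟩
        intro v hv
        rw [Sym2.mem_iff] at hv
        rcases hv with rfl | rfl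
        · exact ⟨1, ⟨0, by simp⟩, by simp⟩
        · exact ⟨a, ⟨1, by simp⟩, rfl⟩
      · have hxE : a • x ∈ EA := by
          right
          refine ⟨h2, ?_, -1, ?_⟩
          · rintro ⟨n, hn⟩
            apply hno (n + 1)
            rwa [zpow_add, zpow_one, mul_smul]
          · rw [w_neg_one]; exact h
        refine ⟨s(a • x, a • a • x), mem_aEdges.2 hxE, ?_⟩
        intro v hv
        rw [Sym2.mem_iff] at hv
        rcases hv with rfl | rfl
        · exact ⟨a, ⟨1, by simp⟩, rfl⟩
        · exact ⟨a * a, ⟨2, by rw [zpow_two]⟩, by rw [mul_smul]⟩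
  · -- the line `V . x`
    by_cases hx : x ∈ Vm
    · obtain ⟨n, hn⟩ := hx
      refine ⟨s(b ^ n • x, b • b ^ n • x), mem_bEdges.2 (Or.inl hn), ?_⟩
      intro v hv
      rw [Sym2.mem_iff] at hv
      rcases hv with rfl | rfl
      · exact ⟨b ^ n, ⟨n, rfl⟩, rfl⟩
      · exact ⟨b ^ (n + 1), ⟨n + 1, rfl⟩, by rw [← mul_smul, add_comm, zpow_add, zpow_one]⟩
    · have hno : ∀ n : ℤ, b ^ n • x ∉ M := fun n h => hx ⟨n, h⟩
      have h0 : x ∉ M := by simpa using hno 0
      have h1 : b • x ∉ M := by simpa using hno 1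
      have h2 : b • b • x ∉ M := by
        have := hno 2
        rwa [zpow_two, mul_smul] at this
      have hnb := hmax (b • x) h1
      rw [inv_smul_smul] at hnb
      have hnb' : a • b • x ∈ M ∨ a⁻¹ • b • x ∈ M := by tauto
      rcases hnb' with h | h
      · have hxE : x ∈ EB := by
          right
          refine ⟨h1, hx, 3, ?_⟩
          rw [w_three, mul_smul, mul_smul, smul_inv_smul]; exact h
        refine ⟨s(x, b • x), mem_bEdges.2 hxE, ?_⟩
        intro v hv
        rw [Sym2.mem_iff] at hv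
        rcases hv with rfl | rfl
        · exact ⟨1, ⟨0, by simp⟩, by simp⟩
        · exact ⟨b, ⟨1, by simp⟩, rfl⟩
      · have hxE : b • x ∈ EB := by
          right
          refine ⟨h2, ?_, 0, ?_⟩
          · rintro ⟨n, hn⟩
            apply hno (n + 1)
            rwa [zpow_add, zpow_one, mul_smul]
          · rw [w_zero, one_smul]; exact h
        refine ⟨s(b • x, b • b • x), mem_bEdges.2 hxE, ?_⟩
        intro v hv
        rw [Sym2.mem_iff] at hv
        rcases hv with rfl | rfl
        · exact ⟨b, ⟨1, by simp⟩, rfl⟩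
        · exact ⟨b * b, ⟨2, by rw [zpow_two]⟩, by rw [mul_smul]⟩
  · -- the line `D . x`
    by_cases hx : x ∈ Dm
    · obtain ⟨n, hn⟩ := hx
      rcases Int.even_or_odd (n - 1) with he | ho
      · -- `w n = a * w (n - 1)`
        have hw : w n = a * w (n - 1) := by
          have := w_succ_even (n - 1) he
          rwa [sub_add_cancel] at this
        have hn' : a • w (n - 1) • x ∈ M := by rwa [hw, mul_smul] at hn
        have hnE : w (n - 1) • x ∉ EA := by
          rintro (h | h)
          · exact hMa _ h hn'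
          · exact h.1 hn'
        refine ⟨s(w (n - 1) • x, a • w (n - 1) • x), hCa _ hnE, ?_⟩
        intro v hv
        rw [Sym2.mem_iff] at hv
        rcases hv with rfl | rfl
        · exact ⟨w (n - 1), ⟨n - 1, rfl⟩, rfl⟩
        · exact ⟨w n, ⟨n, rfl⟩, by rw [hw, mul_smul]⟩
      · have hw : w n = b * w (n - 1) := by
          have := w_succ_odd (n - 1) ho
          rwa [sub_add_cancel] at this
        have hn' : b • w (n - 1) • x ∈ M := by rwa [hw, mul_smul] at hn
        have hnE : w (n - 1) • x ∉ EB := by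
          rintro (h | h)
          · exact hMb _ h hn'
          · exact h.1 hn'
        refine ⟨s(w (n - 1) • x, b • w (n - 1) • x), hCb _ hnE, ?_⟩
        intro v hv
        rw [Sym2.mem_iff] at hv
        rcases hv with rfl | rfl
        · exact ⟨w (n - 1), ⟨n - 1, rfl⟩, rfl⟩
        · exact ⟨w n, ⟨n, rfl⟩, by rw [hw, mul_smul]⟩
    · have hno : ∀ n : ℤ, w n • x ∉ M := fun n h => hx ⟨n, h⟩
      have h0 : x ∉ M := by simpa [w_zero] using hno 0
      have h1 : a • x ∉ M := by simpa [w_one] using hno 1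
      have h2 : b⁻¹ • x ∉ M := by simpa [w_neg_one] using hno (-1)
      have hnb := hmax x h0
      have hnb' : b • x ∈ M ∨ a⁻¹ • x ∈ M := by tauto
      rcases hnb' with h | h
      · have hnE : b⁻¹ • x ∉ EB := by
          rintro (g | g)
          · exact h2 g
          · apply g.2.1
            refine ⟨2, ?_⟩
            simp only [zpow_two, mul_smul, smul_inv_smul]
            exact h
        have hmem := hCb _ hnE
        rw [smul_inv_smul] at hmem
        refine ⟨s(b⁻¹ • x, x), hmem, ?_⟩
        intro v hv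
        rw [Sym2.mem_iff] at hv
        rcases hv with rfl | rfl
        · exact ⟨w (-1), ⟨-1, rfl⟩, by rw [w_neg_one]⟩
        · exact ⟨w 0, ⟨0, rfl⟩, by rw [w_zero, one_smul]⟩
      · have hnE : x ∉ EA := by
          rintro (g | g)
          · exact h0 g
          · apply g.2.1
            refine ⟨-1, ?_⟩
            simpa using h
        refine ⟨s(x, a • x), hCa _ hnE, ?_⟩
        intro v hv
        rw [Sym2.mem_iff] at hv
        rcases hv with rfl | rfl
        · exact ⟨w 0, ⟨0, rfl⟩, by rw [w_zero, one_smul]⟩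
        · exact ⟨w 1, ⟨1, rfl⟩, by rw [w_one]⟩

end Pool.Agent.Results.MP_2fa24b_lc.BorelPartition
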